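import Mathlib
import Pool.Agent.H.MP_bbb74b_al.A

namespace Pool.Agent.Results.MP_bbb74b_al.Counter
open Pool.Agent.H.MP_bbb74b_al

/-- Some generator occurs in the reduced form of `w` and its inverse does not. -/
def PartPos {r : ℕ} (w : FreeGroup (Fin r)) : Prop :=
  ∃ a : Fin r, (a, true) ∈ w.toWord ∧ (a, false) ∉ w.toWord

/-- Some automorphism maps `w` into the submonoid generated by the free generators. -/
def PotPos {r : ℕ} (w : FreeGroup (Fin r)) : Prop :=
  ∃ φ : MulAut (FreeGroup (Fin r)), φ w ∈ Submonoid.closure (Set.range FreeGroup.of)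

theorem result (r : ℕ) (hr : 3 ≤ r) : ∃ w : FreeGroup (Fin r), PartPos w ∧ ¬ PotPos w := by
  obtain ⟨a, b, c, hab, hac, hbc⟩ : ∃ a b c : Fin r, a ≠ b ∧ a ≠ c ∧ b ≠ c :=
    ⟨⟨0, by omega⟩, ⟨1, by omega⟩, ⟨2, by omega⟩, by simp, by simp, by simp⟩
  set z : FreeGroup (Fin r) := .of b * .of c * (.of b)⁻¹ * (.of c)⁻¹ with hz
  refine ⟨.of a * z⁻¹ * .of a * z, ⟨a, ?_⟩, ?_⟩
  · have : (FreeGroup.of a * z⁻¹ * .of a * z).toWord = [(a, true), (c, true), (b, true), (c, false),
        (b, false), (a, true), (b, true), (c, true), (b, false), (c, false)] := by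
      have e : FreeGroup.of a * z⁻¹ * .of a * z = FreeGroup.mk [(a, true), (c, true), (b, true),
          (c, false), (b, false), (a, true), (b, true), (c, true), (b, false), (c, false)] := by
        simp [hz, FreeGroup.of, FreeGroup.mul_mk, FreeGroup.inv_mk, FreeGroup.invRev]
      rw [e, FreeGroup.toWord_mk]
      apply FreeGroup.IsReduced.reduce_eq
      simp [FreeGroup.IsReduced, hab, hac, hbc, hab.symm, hbc.symm]
    rw [this]
    simp [hab, hac]
  · rintro ⟨φ, hφ⟩
    obtain ⟨L, hL⟩ : ∃ L : List (Fin r), (L.map FreeGroup.of).prod =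
        φ (.of a * z⁻¹ * .of a * z) := by
      generalize φ (.of a * z⁻¹ * .of a * z) = W at hφ
      induction hφ using Submonoid.closure_induction with
      | mem x hx => obtain ⟨i, rfl⟩ := hx; exact ⟨[i], by simp⟩
      | one => exact ⟨[], by simp⟩
      | mul x y _ _ hx hy =>
        obtain ⟨L1, rfl⟩ := hx
        obtain ⟨L2, rfl⟩ := hy
        exact ⟨L1 ++ L2, by simp⟩
    rw [map_mul, map_mul, map_mul, map_inv] at hL
    obtain ⟨U, hU⟩ := square (φ (.of a)) (φ z) (by simp [hz]) L hL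
    let ψ : FreeGroup (Fin r) →* Matrix.SpecialLinearGroup (Fin 2) ℤ :=
      FreeGroup.lift (fun i => if i = c then C else B)
    apply nonsq (ψ (φ.symm U))
    have := congrArg (fun g => ψ (φ.symm g)) hU
    simpa [hz, ψ, hac, hbc] using this

end Pool.Agent.Results.MP_bbb74b_al.Counter
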